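import Pool.Agent.H561R3.SC.Main
import Pool.Agent.H561R3.SC.Neg

/-!
Only a sparse computable set of block lengths matters for depth. The proof of `mass_bound'` repeats
that of `mass_bound` in `Pool.Agent.H561R3.SC.Main` for a general bound.
-/

set_option autoImplicit false

namespace Pool.Agent.Y602.SP

open Encodable Pool.Agent.Helper227 Pool.Agent.H561R3 Pool.Agent.H561R3.SC Filter

/-- The block lengths used by the strategies. -/
def Lam : Set ℕ := {l | ∃ i j : ℕ, j ≤ i + 1 ∧ l = LL i j}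

theorem two_mul_AA_le (i : ℕ) : 2 * AA i ≤ LL i 0 := by
  rw [LL_eq]
  unfold dd
  have h1 := lev_pos (r := i + 1) (a := AA i) (by omega) (AA_pos i) 0
  have h3 : 2 ≤ 2 ^ lev (i + 1) (AA i) 0 := by
    calc 2 = 2 ^ 1 := rfl
      _ ≤ _ := Nat.pow_le_pow_right (by norm_num) h1
  have h4 : 1 * 2 ≤ lev (i + 1) (AA i) 0 * 2 ^ lev (i + 1) (AA i) 0 := Nat.mul_le_mul h1 h3
  have h5 : 2 * AA i ≤ lev (i + 1) (AA i) 0 * 2 ^ lev (i + 1) (AA i) 0 * AA i :=
    Nat.mul_le_mul_right _ (by omega)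
  exact h5.trans (Nat.le_mul_of_pos_left _ (by omega))

theorem two_mul_LL_le (i j : ℕ) : 2 * LL i j ≤ LL i (j + 1) := by
  show 2 * lev (i + 1) (AA i) (j + 1) ≤ lev (i + 1) (AA i) (j + 2)
  rw [lev_succ' (i + 1) (AA i) (j + 1)]
  have h1 := lev_pos (r := i + 1) (a := AA i) (by omega) (AA_pos i) (j + 1)
  have h3 : 2 ≤ 2 ^ lev (i + 1) (AA i) (j + 1) := by
    calc 2 = 2 ^ 1 := rfl
      _ ≤ _ := Nat.pow_le_pow_right (by norm_num) h1
  refine Nat.mul_le_mul_right _ ?_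
  have h4 : 1 * 2 ≤ (i + 1) * 2 ^ lev (i + 1) (AA i) (j + 1) := Nat.mul_le_mul (by omega) h3
  have h5 : 1 * 2 * 1 ≤ (i + 1) * 2 ^ lev (i + 1) (AA i) (j + 1) * AA i :=
    Nat.mul_le_mul h4 (AA_pos i)
  omega

theorem LL_gap {i i' : ℕ} (h : i < i') {j j' : ℕ} (hj : j ≤ i + 1) :
    2 * LL i j ≤ LL i' j' := by
  have h1 := LL_le_mm i j hj
  have h2 := mm_lt_AA i
  have h3 : AA (i + 1) ≤ AA i' := AA_mono.monotone h
  have h4 := two_mul_AA_le i'
  have h5 : LL i' 0 ≤ LL i' j' := (LL_mono i').monotone (Nat.zero_le _)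
  omega

/-- The lengths are lacunary. -/
theorem lacunary : ∀ l ∈ Lam, ∀ l' ∈ Lam, l < l' → 2 * l ≤ l' := by
  rintro _ ⟨i, j, hj, rfl⟩ _ ⟨i', j', hj', rfl⟩ hlt
  rcases lt_trichotomy i i' with h | rfl | h
  · exact LL_gap h hj
  · have hjj : j < j' := (LL_mono i).lt_iff_lt.1 hlt
    have h1 := two_mul_LL_le i j
    have h2 : LL i (j + 1) ≤ LL i j' := (LL_mono i).monotone hjj
    omega
  · exfalso
    have h1 := LL_gap h (j' := j) hj'
    have h2 : 0 < LL i' j' := lt_of_le_of_lt (Nat.zero_le _)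
      (lt_of_lt_of_le (le_LL i') ((LL_mono i').monotone (Nat.zero_le _)))
    omega

theorem le_LL' (i j : ℕ) : i ≤ LL i j := by
  have h1 := AA_ge i
  have h2 := le_LL i
  have h5 : LL i 0 ≤ LL i j := (LL_mono i).monotone (Nat.zero_le _)
  omega

theorem infinite : Lam.Infinite := by
  refine Set.infinite_of_injective_forall_mem (f := fun i => LL i 0) LL0_mono.injective ?_
  intro i
  exact ⟨i, 0, Nat.zero_le _, rfl⟩

theorem computable : ComputablePred fun l => l ∈ Lam := by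
  have hR : PrimrecRel fun (j : ℕ) (p : ℕ × ℕ) => p.2 = LL p.1 j :=
    Primrec.eq.comp (Primrec.snd.comp Primrec.snd)
      (pr_LL.comp ((Primrec.fst.comp Primrec.snd).pair Primrec.fst))
  have h1 : PrimrecPred fun p : ℕ × ℕ => ∃ j ∈ List.range (p.1 + 2), p.2 = LL p.1 j :=
    hR.exists_mem_list.comp (Primrec.list_range.comp
      (Primrec.nat_add.comp Primrec.fst (Primrec.const 2))) Primrec.id
  have hR2 : PrimrecRel fun (i l : ℕ) => ∃ j ∈ List.range (i + 2), l = LL i j := h1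
  have h2 : PrimrecPred fun l : ℕ => ∃ i ∈ List.range (l + 1), ∃ j ∈ List.range (i + 2),
      l = LL i j :=
    hR2.exists_mem_list.comp (Primrec.list_range.comp Primrec.succ) Primrec.id
  refine (PrimrecPred.computablePred h2).of_eq fun l => ?_
  constructor
  · rintro ⟨i, -, j, hj, rfl⟩
    rw [List.mem_range] at hj
    exact ⟨i, j, by omega, rfl⟩
  · rintro ⟨i, j, hj, rfl⟩
    refine ⟨i, ?_, j, ?_, rfl⟩
    · rw [List.mem_range]
      have := le_LL' i j
      omega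
    · rw [List.mem_range]
      omega

open Classical in
theorem mass_bound' {U : List Bool →. List Bool} (hU : IsUniversal U) {f : ℕ → ℕ} {d : ℕ}
    (hf : ∀ l ∈ Lam, FF l ≤ f l + d) (c : ℕ)
    {ν : List Bool → ℝ} (hν : IsSemimeasure ν) (hce : LeftCE ν) :
    ∃ i₀ : ℕ, ∀ i ≥ i₀, ∑ σ ∈ restr (SC U f c) (mm i), ν σ ≤ (1 / 2 : ℝ) ^ i := by
  obtain ⟨q, hq, hm, he⟩ := S1.of_re hce
  obtain ⟨M, hM1, hM2, hM3⟩ := KC.kraft_chaitin (pr_req hq) (req_bound hν he)
  obtain ⟨C, hC⟩ := hU.2 M ⟨hM1, hM2⟩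
  refine ⟨C + c + d, fun i hi => ?_⟩
  obtain ⟨t, ht⟩ := exists_small hν hm he i
  refine le_trans ?_ ht
  refine Finset.sum_le_sum_of_subset_of_nonneg ?_ (fun σ _ _ => hν.nonneg σ)
  intro σ hσ
  simp only [restr, Finset.mem_filter] at hσ ⊢
  obtain ⟨hF, X, hXP, hXσ⟩ := hσ
  refine ⟨hF, fun x hx hinf => ?_⟩
  obtain ⟨s, _, hs⟩ := mem_Hs q hx
  obtain ⟨j, hj, hlen⟩ := mem_cands.1 (pick_some q hs).1
  have hreq : req q (Nat.pair i s) = some (3 * (x.length / (i + 1)), x) := by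
    unfold req
    rw [Nat.unpair_pair]
    simp only
    rw [hs]
    rfl
  obtain ⟨τ, hτ1, hτ2⟩ := hM3 _ _ _ hreq
  obtain ⟨τ', h1, h2⟩ := hC τ x hτ2
  have h3 := KU_le h2
  obtain ⟨k, hk⟩ := block_of_infix hXσ hinf
  have h4 := hXP k x.length
  rw [hk] at h4
  have h5 := FF_level hj
  rw [← hlen] at h5
  have h8 : FF x.length ≤ f x.length + d := hf _ ⟨i, j, hj, hlen⟩
  have h6 : x.length / (i + 1) = dd (i + 1) (AA i) j := by rw [hlen, LL_div]
  rw [h6] at hτ1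
  have h7 := dd_ge i j
  omega

theorem deep' {U : List Bool →. List Bool} (hU : IsUniversal U) {f : ℕ → ℕ} {d : ℕ}
    (hf : ∀ l ∈ Lam, FF l ≤ f l + d) (c : ℕ)
    {ν : List Bool → ℝ} (hν : IsSemimeasure ν) (hce : LeftCE ν) : Deep ν (SC U f c) := by
  obtain ⟨i₀, hi₀⟩ := mass_bound' hU hf c hν hce
  refine ⟨fun n => mm (max n i₀), ?_, ?_, ?_, ?_⟩
  · exact (pr_mm.comp (Primrec.nat_max.comp Primrec.id (Primrec.const i₀))).to_comp
  · intro a b hab
    exact mm_mono.monotone (max_le_max_right _ hab)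
  · refine tendsto_atTop_mono (fun n => ?_) tendsto_id
    exact (le_max_left n i₀).trans (mm_mono.id_le _)
  · intro n
    refine (hi₀ _ (le_max_right _ _)).trans ?_
    exact pow_le_pow_of_le_one (by norm_num) (by norm_num) (le_max_left _ _)

end Pool.Agent.Y602.SP
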